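import Pool.Agent.Helper24.KG.Main

/-!
# Beilinson's conjecture over finite fields and Euler characteristics of hypersurface complements

Let `k` be a finite field with `q` elements and `ℓ` a prime different from its characteristic. Let `C` be
the category of Chow motives over `k` with rational coefficients. For a motive `N` and `n ≥ 0` let
`src n N = CH^0(N, n) ⊗ ℚ_ℓ` and `tgt n N = H^{-n}(N̄, ℚ_ℓ)^G`, two additive functors of `N`, and let
`cyc n : src n → tgt n` be the cycle map. For the motive `N = h(X)(j)` of a smooth projective scheme `X` this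
is the map `c_X^{i,j} : CH^j(X, n) ⊗ ℚ_ℓ → H^i(X̄, ℚ_ℓ(j))^G` of question Q1 with `i = 2j - n`. The
statement of Q1 for `X` (`Conj n j X`) is the vanishing of the additive functor `ker (cyc n)` on `h(X)(j)`.
For `n > 0` this is the vanishing of `CH^j(X, n) ⊗ ℚ` (Parshin), for `n = 0` it says that rational and
`ℓ`-adic homological equivalence coincide (with coefficients `ℚ_ℓ`).

For a separated scheme `X` of finite type over `k` let `W(X)` be its weight complex with compact supports
(Gillet, Soulé), a bounded complex of Chow motives; its terms are direct summands of motives of smooth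
projective schemes of dimension at most `dim X` (`IsWeightsF`). If the complex `ker (cyc n)(W(X)(j))` has
finite dimensional cohomology (`HasChi`), let `χ_{n,j}(X)` be its Euler characteristic (`euler`). We look at
the open subsets `D(F) : F ≠ 0` of the affine spaces, `F ∈ k[x_1, …, x_r]`.

**Theorem.** Let `n ≥ 0`.

(1) Let `j` and `d ≥ 0` be given. `c_X^{2j-n,j}` is injective for all smooth projective `X` over `k` of
dimension at most `d` if and only if the numbers `χ_{n,j}(D(F))` are defined and
`o(deg F / log (deg F + 3))`, for `F ∈ k[x_1, …, x_{d+1}]`.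

(2) One-sided bounds `χ_{n,j}(D(F)) ≤ o(deg F / log (deg F + 3))` (or the same for `-χ_{n,j}`), for the
polynomials in `d + 1` and in `d + 2` variables, are enough, too.

(3) Let `J` be given. The maps `c_X^{2j-n,j}` are injective for all smooth projective `X` over `k` and all
`j ≤ J` if and only if for all `j ≤ J` the numbers `χ_{n,j}(D(F))` are defined and satisfy
`χ_{n,j}(D(F)) ≤ o(q^r)` for the polynomials `F ∈ k[x_1, …, x_r]` with `deg F ≤ q r + b`, for all `b`. The same
with `-χ_{n,j}`.

If `c_X^{2j-n,j}` is not injective, then by (3) there are such polynomials with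
`χ_{n,j'}(D(F)) ≥ δ q^r` (and others with `-χ ≥ δ q^r`), `j' ≤ j`, `δ > 0`, `r → ∞`.
-/

set_option autoImplicit false
set_option linter.checkUnivs false

open CategoryTheory Limits AlgebraicGeometry Pool.Agent.Y116.UV Pool.Agent.Q282.UM
  Pool.Agent.Q282.UK Pool.Agent.Helper24.KD Pool.Agent.Helper24.KF Pool.Agent.Helper24.KG

universe v u

namespace Pool.Agent.Results.MP_b52861_ag.EulerCharacteristics

/-- The category `C` of Chow motives over `k`, with

* the motives `h(X)`, the Tate twists `N(j)` and the weight complexes `W(X)` (`Weights`);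
* the functors `src n`, `tgt n` and the cycle maps `cyc n`. -/
structure Mot (ℓ : ℕ) [Fact ℓ.Prime] (k : Type) [Field k] where
  C : Type u
  [cat : Category.{v} C]
  [pre : Preadditive C]
  [zero : HasZeroObject C]
  [bin : HasBinaryBiproducts C]
  [fin : HasFiniteBiproducts C]
  D : Weights k C
  src : ℕ → C ⥤ ModuleCat.{0} ℚ_[ℓ]
  tgt : ℕ → C ⥤ ModuleCat.{0} ℚ_[ℓ]
  [src_additive : ∀ n, (src n).Additive]
  [tgt_additive : ∀ n, (tgt n).Additive]
  cyc : ∀ n, src n ⟶ tgt n

attribute [instance] Mot.cat Mot.pre Mot.zero Mot.bin Mot.fin Mot.src_additive Mot.tgt_additive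

variable {ℓ : ℕ} [Fact ℓ.Prime] {k : Type} [Field k] (M : Mot.{v, u} ℓ k)

/-- The motive `h(X)(j)`. -/
noncomputable def Mot.motive (j : ℤ) (X : Sch k) : M.C := (M.D.tw j).obj (M.D.h X)

/-- Question Q1 for the smooth projective scheme `X`, the twist `j` and `i = 2j - n`. -/
def Conj (n : ℕ) (j : ℤ) (X : Sch k) : Prop :=
  Function.Injective ((M.cyc n).app (M.motive j X)).hom

/-- The kernels of the cycle maps. -/
noncomputable abbrev Mot.ker (n : ℕ) : M.C ⥤ ModuleCat.{0} ℚ_[ℓ] := kerF (M.cyc n)

/-- The known properties of the Chow motives over `k`.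

* `weight`: the weight complexes;
* `points`: Q1 is true in dimension zero (Quillen);
* `negative`: `CH^j(X, n) = 0` for `j < 0`. -/
structure KnownFacts : Prop where
  weight : IsWeightsF M.D
  points : ∀ X : Sch k, IsSmoothProjective X → topologicalKrullDim X.left ≤ (0 : ℕ) →
    ∀ (n : ℕ) (j : ℤ), Conj M n j X
  negative : ∀ X : Sch k, IsSmoothProjective X → ∀ (n : ℕ) (j : ℤ), j < 0 →
    Subsingleton ((M.src n).obj (M.motive j X))

variable {M}

lemma conj_iff (n : ℕ) (j : ℤ) (X : Sch k) : Conj M n j X ↔ Zero (M.ker n) M.D j X := by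
  unfold Conj
  rw [← ModuleCat.mono_iff_injective]
  constructor
  · intro h
    exact ModuleCat.subsingleton_of_isZero (isZero_kernel_of_mono ((M.cyc n).app (M.motive j X)))
  · intro h
    have h3 : IsZero (kernel ((M.cyc n).app (M.motive j X))) :=
      @ModuleCat.isZero_of_subsingleton _ _ _ h
    exact Preadditive.mono_of_isZero_kernel _ h3

lemma known (hM : KnownFacts M) (n : ℕ) : Known (M.ker n) M.D where
  weight := hM.weight
  points j X hX hd := (conj_iff n j X).mp (hM.points X hX (by exact_mod_cast hd) n j)
  negative j hj X hX := (conj_iff n j X).mp (by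
    have := hM.negative X hX n j hj
    exact Function.injective_of_subsingleton _)

/-- **Beilinson's conjecture over finite fields and Euler characteristics of hypersurface
complements.** See the explanations above. -/
theorem result {ℓ : ℕ} [Fact ℓ.Prime] {k : Type} [Field k] [Finite k] (M : Mot.{v, u} ℓ k)
    (hM : KnownFacts M) (n : ℕ) :
    -- (1) dimension at most `d`: bounds `o(deg / log deg)`
    (∀ (j : ℤ) (d : ℕ), (∀ X : Sch k, IsSmoothProjective X → topologicalKrullDim X.left ≤ d →
        Conj M n j X) ↔ Bound (M.ker n) M.D abs j (d + 1)) ∧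
    -- (2) one-sided bounds
    (∀ (j : ℤ) (d : ℕ) (R : ℤ → ℤ), (R = id ∨ R = Neg.neg) → Bound (M.ker n) M.D R j (d + 1) →
      Bound (M.ker n) M.D R j (d + 2) → ∀ X : Sch k, IsSmoothProjective X →
        topologicalKrullDim X.left ≤ d → Conj M n j X) ∧
    -- (3) all dimensions: growth slower than `q ^ r`
    ∀ (J : ℤ) (R : ℤ → ℤ), (R = id ∨ R = Neg.neg) →
      ((∀ j ≤ J, ∀ X : Sch k, IsSmoothProjective X → Conj M n j X) ↔
        ∀ j ≤ J, Growth (M.ker n) M.D R j) := by
  have hK := known hM n
  refine ⟨fun j d => ⟨fun h => ?_, fun h X hX hd => ?_⟩, fun j d R hR h1 h2 X hX hd => ?_,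
    fun J R hR => ⟨fun h j hj => ?_, fun h j hj X hX => ?_⟩⟩
  · exact to_bound hK (fun X hX hd => (conj_iff n j X).mp (h X hX hd)) abs_zero
  · exact (conj_iff n j X).mpr (from_abs hK h X hX hd)
  · exact (conj_iff n j X).mpr (from_one hK hR h1 h2 X hX hd)
  · refine to_growth hK (fun X hX => (conj_iff n j X).mp (h j hj X hX)) ?_
    rcases hR with rfl | rfl
    · rfl
    · exact neg_zero
  · exact (conj_iff n j X).mpr (from_growth hK hR h j hj X hX)

end Pool.Agent.Results.MP_b52861_ag.EulerCharacteristics
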