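import Pool.Agent.Helper7.AF.Finite

/-!
# Beilinson's injectivity over finite fields in the degrees below the weight is decided by one
ample field
-/

set_option autoImplicit false

namespace Pool.Agent.Results.MP_b52861_ag.OneAmpleField

open Cardinal Pool.Agent.Helper7.AF

/-- Let `ℓ ≠ p` be primes, let `K` be an ample (large) field of characteristic `p` (`K` is
existentially closed in `K((t))`) of infinite transcendence degree `κ` over the field with `p`
elements, and let `L` be any field containing `K`. Then (`CycleTheory.Decides`):

1. the following are equivalent: `c_X^{i,j}` is injective for all smooth `X` over finite fields of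
   characteristic `p` and all `i < j`; `Hⁱ(L, ℚ(j)) = 0` for all `i < j`; the dimension of
   `Hⁱ(L, ℚ(j))` is less than `κ` for all `i < j`; for all `d ≥ 1` there are arbitrarily large `n`
   such that the dimension of `Hⁿ⁻ᵈ(L, ℚ(n))` is less than `κ`;
2. for all `J` the following are equivalent: `c_X^{i,j}` is injective for all smooth `X` over finite
   fields of characteristic `p` and all `i < j ≤ J`; `Hⁱ(L, ℚ(j)) = 0` for all `i < j ≤ J`; the
   dimension of `Hⁱ(L, ℚ(j))` is less than `κ` for all `i < j ≤ J`;
3. for all `i < j` the following are equivalent: `Hⁱ(F, ℚ(j)) = 0` for all fields `F` of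
   characteristic `p`; `Hⁱ(L, ℚ(j)) = 0`; the dimension of `Hⁱ(L, ℚ(j))` is less than `κ`;
4. if `X` is smooth over a finite field of characteristic `p`, `i < j` and `c_X^{i,j}` is not
   injective, then there is a point of `X`, of codimension `c`, such that the dimension of
   `Hⁱ⁻²ᶜ(L, ℚ(j - c))` is at least `κ`.

The same holds, with the cardinality of `K` in place of `κ`, if `K` is a field of characteristic
`p` which is complete with respect to a nontrivial absolute value, and if `K = k((t))` for a field
`k` of characteristic `p`, such as the field with `p` elements. -/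
theorem result (p ℓ : ℕ) [Fact p.Prime] [Fact ℓ.Prime] (M : CycleTheory p ℓ) :
    (∀ (K L : Type) [Field K] [Algebra (ZMod p) K] [Field L] [Algebra K L], Ample K →
      ℵ₀ ≤ Algebra.trdeg (ZMod p) K → M.Decides L (Algebra.trdeg (ZMod p) K)) ∧
    (∀ (K L : Type) [NontriviallyNormedField K] [CompleteSpace K] [CharP K p] [Field L]
      [Algebra K L], M.Decides L #K) ∧
    ∀ (k L : Type) [Field k] [CharP k p] [Field L] [Algebra (LaurentSeries k) L],
      M.Decides L #(LaurentSeries k) :=
  ⟨fun K L _ _ _ _ hK hκ => M.decides_ample K L hK hκ,
    fun K L _ _ _ _ _ => M.decides_complete K L,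
    fun k L _ _ _ _ => M.decides_laurent k L⟩

end Pool.Agent.Results.MP_b52861_ag.OneAmpleField
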