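import Pool.Agent.Helper24.SE.Fin

/-!
# Beilinson's conjecture over finite fields and exceptional sets with a power saving

Let `k` be a finite field and `ℓ` a prime different from its characteristic. Let `C` be the category of Chow
motives over `k` with rational coefficients. For a motive `N` and `n ≥ 0` let
`src n N = CH^0(N, n) ⊗ ℚ_ℓ` and `tgt n N = H^{-n}(N̄, ℚ_ℓ)^G`, two additive functors of `N`, and let
`cyc n : src n → tgt n` be the cycle map. For the motive `N = h(X)(j)` of a smooth projective scheme `X` this
is the map `c_X^{i,j} : CH^j(X, n) ⊗ ℚ_ℓ → H^i(X̄, ℚ_ℓ(j))^G` of question Q1 with `i = 2j - n`. The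
statement of Q1 for `X` (`Conj n j X`) is the vanishing of the additive functor `K = ker (cyc n)` on `h(X)(j)`.
For `n > 0` this is the vanishing of `CH^j(X, n) ⊗ ℚ` (Parshin), for `n = 0` it says that rational and
`ℓ`-adic homological equivalence coincide (with coefficients `ℚ_ℓ`).

For a separated scheme `X` of finite type over `k` let `W(X)` be its weight complex with compact supports
(Gillet, Soulé), a bounded complex of Chow motives; its terms are direct summands of motives of smooth
projective schemes of dimension at most `dim X` (`IsWeightsF`). A polynomial `F ∈ k[x_1, …, x_r]` is an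
exception (for `n` and `j`) if it is false that the complex `K(W(D(F))(j))` has cohomology of finite total
dimension and Euler characteristic zero, where `D(F)` is the complement of the hypersurface `F = 0` in the
affine space. Let `Box(D)` be the finite set of the `F` of degree at most `D` in each variable and `Exc(D)`
the set of the exceptions in `Box(D)`.

**Theorem.** Let `n ≥ 0` and `j` be given.

(1) `c_X^{2j-n,j}` is injective for all smooth projective `X` over `k` of dimension at most `d` if and only if
the exceptional sets in `d + 1` variables have a power saving: for some `ε > 0` there are infinitely many `D`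
with `#Exc(D) ≤ #Box(D) ^ (1 - ε)`.

(2) `c_X^{2j-n,j}` is injective for all smooth projective `X` over `k` if and only if the exceptional sets in
`r` variables have a power saving, for infinitely many `r`.

(3) A zero–one law: if there is one exception in `r ≥ 1` variables, then for every `ε > 0` and all large `D`
there are more than `#Box(D) ^ (1 - ε)` exceptions in `Box(D)`.

(4) If the hypersurfaces `F = 0` and `H = 0` are disjoint and `F` is an exception, then `H` or `F H` is an
exception.
-/

set_option autoImplicit false
set_option linter.checkUnivs false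

open CategoryTheory Limits AlgebraicGeometry Filter Pool.Agent.Y116.UV Pool.Agent.Q282.UM
  Pool.Agent.Q282.UK Pool.Agent.Helper24.KD Pool.Agent.Helper24.KF Pool.Agent.Helper24.KG

open Pool.Agent.Helper24.SE (BoxF ExcF SavingF ExcpF functorF_dim functorF_all functorF_full disj_compl)

universe v u

namespace Pool.Agent.Results.MP_b52861_ag.PowerSaving

/-- The category `C` of Chow motives over `k`, with

* the motives `h(X)`, the Tate twists `N(j)` and the weight complexes `W(X)` (`Weights`);
* the functors `src n`, `tgt n` and the cycle maps `cyc n`. -/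
structure Mot (ℓ : ℕ) [Fact ℓ.Prime] (k : Type) [Field k] where
  C : Type u
  [cat : Category.{v} C]
  [pre : Preadditive C]
  [zero : HasZeroObject C]
  [bin : HasBinaryBiproducts C]
  [fin : HasFiniteBiproducts C]
  D : Weights k C
  src : ℕ → C ⥤ ModuleCat.{0} ℚ_[ℓ]
  tgt : ℕ → C ⥤ ModuleCat.{0} ℚ_[ℓ]
  [src_additive : ∀ n, (src n).Additive]
  [tgt_additive : ∀ n, (tgt n).Additive]
  cyc : ∀ n, src n ⟶ tgt n

attribute [instance] Mot.cat Mot.pre Mot.zero Mot.bin Mot.fin Mot.src_additive Mot.tgt_additive

variable {ℓ : ℕ} [Fact ℓ.Prime] {k : Type} [Field k] (M : Mot.{v, u} ℓ k)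

/-- The motive `h(X)(j)`. -/
noncomputable def Mot.motive (j : ℤ) (X : Sch k) : M.C := (M.D.tw j).obj (M.D.h X)

/-- Question Q1 for the smooth projective scheme `X`, the twist `j` and `i = 2j - n`. -/
def Conj (n : ℕ) (j : ℤ) (X : Sch k) : Prop :=
  Function.Injective ((M.cyc n).app (M.motive j X)).hom

/-- The kernels of the cycle maps. -/
noncomputable abbrev Mot.ker (n : ℕ) : M.C ⥤ ModuleCat.{0} ℚ_[ℓ] := kerF (M.cyc n)

/-- The known properties of the Chow motives over `k`.

* `weight`: the weight complexes;
* `points`: Q1 is true in dimension zero (Quillen);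
* `negative`: `CH^j(X, n) = 0` for `j < 0`. -/
structure KnownFacts : Prop where
  weight : IsWeightsF M.D
  points : ∀ X : Sch k, IsSmoothProjective X → topologicalKrullDim X.left ≤ (0 : ℕ) →
    ∀ (n : ℕ) (j : ℤ), Conj M n j X
  negative : ∀ X : Sch k, IsSmoothProjective X → ∀ (n : ℕ) (j : ℤ), j < 0 →
    Subsingleton ((M.src n).obj (M.motive j X))

variable {M}

lemma conj_iff (n : ℕ) (j : ℤ) (X : Sch k) : Conj M n j X ↔ Zero (M.ker n) M.D j X := by
  unfold Conj
  rw [← ModuleCat.mono_iff_injective]
  constructor
  · intro h
    exact ModuleCat.subsingleton_of_isZero (isZero_kernel_of_mono ((M.cyc n).app (M.motive j X)))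
  · intro h
    have h3 : IsZero (kernel ((M.cyc n).app (M.motive j X))) :=
      @ModuleCat.isZero_of_subsingleton _ _ _ h
    exact Preadditive.mono_of_isZero_kernel _ h3

lemma known (hM : KnownFacts M) (n : ℕ) : Known (M.ker n) M.D where
  weight := hM.weight
  points j X hX hd := (conj_iff n j X).mp (hM.points X hX (by exact_mod_cast hd) n j)
  negative j hj X hX := (conj_iff n j X).mp (by
    have := hM.negative X hX n j hj
    exact Function.injective_of_subsingleton _)

/-- `F` is an exception: it is false that the Euler characteristic of `K(W(D(F))(j))`, `K = ker (cyc n)`, is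
defined and zero. -/
def Exception (M : Mot.{v, u} ℓ k) (n : ℕ) (j : ℤ) {r : ℕ} (F : MvPolynomial (Fin r) k) : Prop :=
  ¬ (HasChi (M.ker n) M.D j (princ F) ∧ euler (M.ker n) M.D j (princ F) = 0)

/-- **Beilinson's conjecture over finite fields and exceptional sets with a power saving.** See the
explanations above. -/
theorem result {ℓ : ℕ} [Fact ℓ.Prime] {k : Type} [Field k] [Finite k] (M : Mot.{v, u} ℓ k)
    (hM : KnownFacts M) (n : ℕ) (j : ℤ) :
    -- (1) dimension at most `d`
    (∀ d : ℕ, (∀ X : Sch k, IsSmoothProjective X → topologicalKrullDim X.left ≤ d → Conj M n j X) ↔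
      SavingF (k := k) (r := d + 1) (Exception M n j)) ∧
    -- (2) all dimensions
    ((∀ X : Sch k, IsSmoothProjective X → Conj M n j X) ↔
      ∃ᶠ r : ℕ in atTop, SavingF (k := k) (r := r) (Exception M n j)) ∧
    -- (3) one exception
    (∀ (r : ℕ) (G : MvPolynomial (Fin (r + 1)) k), Exception M n j G → ∀ ε : ℝ, 0 < ε →
      ∀ᶠ D : ℕ in atTop, ((BoxF k (r + 1) D).ncard : ℝ) ^ (1 - ε) <
        ((ExcF (k := k) (r := r + 1) (Exception M n j) D).ncard : ℝ)) ∧
    -- (4) disjoint hypersurfaces
    ∀ (r : ℕ) (F H : MvPolynomial (Fin r) k), Ideal.span {H} ⊔ Ideal.span {F} = ⊤ →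
      Exception M n j F → Exception M n j H ∨ Exception M n j (F * H) := by
  have hK := known hM n
  refine ⟨fun d => ?_, ?_, fun r G hG ε hε => functorF_full hK j hG hε, fun r F H hFH hF => ?_⟩
  · refine Iff.trans ?_ (functorF_dim hK j d)
    exact forall₃_congr fun X _ _ => conj_iff n j X
  · refine Iff.trans ?_ (functorF_all hK j)
    exact forall₂_congr fun X _ => conj_iff n j X
  · have e : ∀ (P : MvPolynomial (Fin r) k), Exception M n j P ↔
        ¬ QT (TOne (M.ker n)) M.D j (aff k (Localization.Away P)) 0 := fun P =>
      not_congr (q_iff j _ 0).symm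
    rw [e] at hF
    rw [e, e]
    exact disj_compl (P := fun X => QT (TOne (M.ker n)) M.D j X 0)
      (dfcF (tOne _) hK.weight j).cls (exact_space hK j r) F H hFH hF

end Pool.Agent.Results.MP_b52861_ag.PowerSaving
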