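import Pool.Agent.Helper62.DB.Eqv

/-!
# MP_b52861_ag: Beilinson's injectivity conjecture and unions of two affine spaces

`T : CycleTheory k K` are data of the motivic Borel–Moore homology `H a b X` of the varieties over the
finite field `k`, tensored with `K = ℚ_ℓ`, and of the cycle maps `c` to the `ℓ`-adic Borel–Moore homology
over an algebraic closure. If `X` is smooth of pure dimension `d`, `H a b X` is the group
`CH^j(X, 2 j - i) ⊗ ℚ_ℓ` with `i = 2 d - a`, `j = d - b`, and `T.Injective X` says that the maps
`c_X^{i,j}` are injective for all `i, j`. `HProps`, `Known` and `FiniteFacts` list the known facts which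
are used.

`dblS F` is the double cover `t ^ 2 - t = y F(x_1, …, x_N)` of the affine space of dimension `N + 1`.
-/

set_option autoImplicit false

open CategoryTheory CategoryTheory.Limits AlgebraicGeometry Pool.Agent.Helper62.EC
  Pool.Agent.Helper62.DB

open Pool.Agent.Y116.UV (affMap affIso affMap_comp range_affMap closed_affMap aff ft_aff)
open Pool.Agent.TH376.TC (Sch IsVar HMaps HProps QProj ForCubics Cone lin CycleTheory
  HasAffineBundle)
open Pool.Agent.TH90.Cub (IsGate)

namespace Pool.Agent.Results.MP_b52861_ag.UnionsOfTwoAffineSpaces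

/-- The double cover `t ^ 2 - t = y F(x)` of the affine space, `F` in the polynomial ring `D`. -/
noncomputable def dblS {k D : Type} [Field k] [CommRing D] [Algebra k D] (F : D) : Sch k :=
  aff k (Db F)

/-- `X` is the union of two open subschemes which are isomorphic to the affine space of dimension
`N`. -/
def TwoSpaces {k : Type} [Field k] (N : ℕ) (X : Sch k) : Prop :=
  ∃ j₁ j₂ : aff k (MvPolynomial (Fin N) k) ⟶ X, IsOpenImmersion j₁.left ∧
    IsOpenImmersion j₂.left ∧ Set.range j₁.left ∪ Set.range j₂.left = Set.univ

section geometry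

variable {k D : Type} [Field k] [CommRing D] [Algebra k D] (F : D) {M : ℕ}
  (e : Polynomial D ≃ₐ[k] MvPolynomial (Fin M) k)

include e

lemma two_spaces : TwoSpaces M (dblS (k := k) F) := by
  refine ⟨(affIso e).hom ≫ affMap ((chart₁ F).restrictScalars k),
    (affIso e).hom ≫ affMap ((chart₂ F).restrictScalars k), ?_, ?_, ?_⟩
  · rw [Over.comp_left]
    have h4 : IsIso (affIso e).hom.left := inferInstance
    exact MorphismProperty.comp_mem @IsOpenImmersion _ _ inferInstance (open₁ F k)
  · rw [Over.comp_left]
    have h4 : IsIso (affIso e).hom.left := inferInstance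
    exact MorphismProperty.comp_mem @IsOpenImmersion _ _ inferInstance (open₂ F k)
  · have h4 : IsIso (affIso e).hom.left := inferInstance
    have h3 : Function.Surjective (affIso e).hom.left :=
      (Scheme.homeoOfIso (asIso (affIso e).hom.left)).surjective
    rw [Over.comp_left, Over.comp_left, Scheme.Hom.comp_base, TopCat.coe_comp, h3.range_comp,
      Scheme.Hom.comp_base, TopCat.coe_comp, h3.range_comp]
    exact cover₁₂ F k

lemma smooth_dblS : Smooth (dblS (k := k) F).hom := by
  refine smooth_dbl F (R := k) ?_
  have h1 : Smooth (aff k (MvPolynomial (Fin M) k)).hom := by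
    change Smooth (Spec.map (CommRingCat.ofHom (algebraMap k (MvPolynomial (Fin M) k))))
    rw [HasRingHomProperty.Spec_iff (P := @Smooth)]
    exact RingHom.smooth_algebraMap.mpr (⟨inferInstance, inferInstance⟩ : Algebra.Smooth k (MvPolynomial (Fin M) k))
  have h2 : (aff k (Polynomial D)).hom = (affIso e).inv.left ≫
      (aff k (MvPolynomial (Fin M) k)).hom := (Over.w _).symm
  rw [h2]
  infer_instance

end geometry

variable {k K : Type} [Field k] [Field K]

/-- The trick of Jouanolou and Thomason: over each smooth variety there is an affine variety which is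
a Zariski locally trivial bundle of affine spaces. (Smooth separated schemes have ample families of
line bundles.) -/
def JouanolouThomason (k : Type) [Field k] : Prop :=
  ∀ X : Sch k, Smooth X.hom → IsVar X → HasAffineBundle X

/-- The property `P` for the hypersurfaces `t ^ 2 - t = y (g_0 t_0 + ⋯ + g_r t_r)` of degree at most
four, the `g_i` being gates with constants in `S` (polynomials of degree at most two of a special
shape). -/
def ForQuartics (S : Set k) (P : Sch k → Prop) : Prop :=
  ∀ (n r : ℕ) (g : Fin (r + 1) → MvPolynomial (Fin n) k), (∀ i, IsGate S (g i)) →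
    P (dblS (k := k) (lin g))

/-- The cycle maps of motivic homology are injective for all smooth varieties; for all smooth
quasi-projective varieties; for all quasi-projective varieties; for the smooth affine varieties which
are unions of two open affine spaces; for the double covers `t ^ 2 - t = y F(x)` of affine spaces; for
those with `F = g_0 t_0 + ⋯ + g_r t_r`. -/
def Forms (T : CycleTheory k K) (S : Set k) : List Prop :=
  [∀ X : Sch k, Smooth X.hom → IsVar X → T.Injective X,
    ∀ X : Sch k, Smooth X.hom → QProj X → T.Injective X,
    ∀ X : Sch k, QProj X → T.Injective X,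
    ∀ (D : Type) [CommRing D] [Algebra k D], Algebra.FiniteType k D → Smooth (aff k D).hom →
      (∃ N, TwoSpaces N (aff k D)) → T.Injective (aff k D),
    ∀ (N : ℕ) (F : MvPolynomial (Fin N) k), T.Injective (dblS F),
    ForQuartics S T.Injective]

section proof

variable {T : CycleTheory k K} (hH : HProps T.toHMaps) (hT : T.Known)
  (hF : FiniteFacts T.toHMaps)

include hH hT hF

omit hF in
lemma all_smooth (hJ : JouanolouThomason k) (h : ∀ X : Sch k, QProj X → T.Injective X) (X : Sch k)
    (hs : Smooth X.hom) (hX : IsVar X) : T.Injective X := by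
  intro a b x hx
  obtain ⟨D, _, _, q, d, hD, hq⟩ := hJ X hs hX
  have a1 : a + 2 * (d : ℤ) = a + 2 * d := rfl
  have b1 : b + (d : ℤ) = b + d := rfl
  exact hH.inj q d hq hX _ _ _ _ a1 b1 x (h _ (hT.affine D hD) _ _ _
    (hT.pull q d hq _ _ _ _ a1 b1 x hx))

lemma dbl_cubics {S : Set k}
    (h : ∀ (N : ℕ) (F : MvPolynomial (Fin N) k), T.Injective (dblS F)) :
    ForCubics S T.Injective := by
  intro n r g _ a b
  have h1 : InjAt T a b (aff k (MvPolynomial (Fin (r + 1 + n)) k ⧸
      Ideal.span {twoSets k n (r + 1) (lin g)})) :=
    inj_of_dbl hH hT hF _ (addVar k (AlgEquiv.refl)) a b (h _ _ _ _)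
  exact inj_iso hH hT (quotEquiv k (twoSets k n (r + 1)) (lin g)) a b h1

lemma quartics_cubics {S : Set k} (h : ForQuartics S T.Injective) :
    ForCubics S T.Injective := by
  intro n r g hg a b
  exact inj_of_dbl hH hT hF (lin g) (addVar k (twoSets k n (r + 1))) a b (h n r g hg _ _)

theorem forms_tfae (hJ : JouanolouThomason k) {S : Set k} (hS : Subfield.closure S = ⊤)
    (h1 : (1 : k) ∈ S) : (Forms T S).TFAE := by
  unfold Forms
  tfae_have 3 → 1 := fun h X => all_smooth hH hT hJ h X
  tfae_have 1 → 2 := fun h X hs hX => h X hs (hT.isVar X hX)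
  tfae_have 2 → 4 := fun h D _ _ hD hs _ => h _ hs (hT.affine D hD)
  tfae_have 4 → 5 := fun h N F => h _ inferInstance (smooth_dblS F (addVar k AlgEquiv.refl))
    ⟨_, two_spaces F (addVar k AlgEquiv.refl)⟩
  tfae_have 5 → 3 := fun h => (CycleTheory.injective_iff hH hT hS h1).2 (dbl_cubics hH hT hF h)
  tfae_have 4 → 6 := fun h n r g _ => h _ inferInstance
    (smooth_dblS (lin g) (addVar k (twoSets k n (r + 1))))
    ⟨_, two_spaces (lin g) (addVar k (twoSets k n (r + 1)))⟩
  tfae_have 6 → 3 := fun h => (CycleTheory.injective_iff hH hT hS h1).2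
    (quartics_cubics hH hT hF h)
  tfae_finish

end proof

/-- **Beilinson's injectivity conjecture for the higher Chow groups over finite fields and unions of
two affine spaces.** The double cover `t ^ 2 - t = y F(x_1, …, x_N)` is a smooth affine variety which is
the union of two open affine spaces. If its cycle map in degree `a + 2` and twist `b + 1` is injective,
so is the cycle map in degree `a` and twist `b` of the possibly singular hypersurface `F = 0`. The
conjecture for all smooth varieties, for the smooth quasi-projective varieties, injectivity for all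
quasi-projective varieties, the conjecture for the smooth affine varieties which are unions of two
open affine spaces, for the double covers, and for the double covers of degree at most four attached
to gates, are all equivalent. -/
theorem result (T : CycleTheory k K) (hH : HProps T.toHMaps) (hT : T.Known)
    (hF : FiniteFacts T.toHMaps) (hJ : JouanolouThomason k) :
    (∀ (N : ℕ) (F : MvPolynomial (Fin N) k),
      Smooth (dblS (k := k) F).hom ∧ QProj (dblS (k := k) F) ∧
        TwoSpaces (N + 1) (dblS (k := k) F)) ∧
    (∀ (N : ℕ) (F : MvPolynomial (Fin N) k) (a b : ℤ), InjAt T (a + 2) (b + 1) (dblS F) →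
      InjAt T a b (aff k (MvPolynomial (Fin N) k ⧸ Ideal.span {F}))) ∧
    ∀ S : Set k, Subfield.closure S = ⊤ → (1 : k) ∈ S → (Forms T S).TFAE :=
  ⟨fun _ F => ⟨smooth_dblS F (addVar k AlgEquiv.refl), hT.affine _ inferInstance,
      two_spaces F (addVar k AlgEquiv.refl)⟩,
    fun _ F a b => inj_of_dbl hH hT hF F (addVar k AlgEquiv.refl) a b,
    fun _ hS h1 => forms_tfae hH hT hF hJ hS h1⟩

end Pool.Agent.Results.MP_b52861_ag.UnionsOfTwoAffineSpaces
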